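import Mathlib
import Pool.Agent.H308R3.DM.Stmts

set_option autoImplicit false

/-!
# Combinatorial part of task Bad1 of project DIAMOND (helper811)
-/

namespace Pool.Agent.H811R3.DM

open Finset Filter Topology
open Pool.Agent.H308R3.DM

theorem mem_bd {G : Finset Pt} {x : Pt} : x ∈ bd G ↔ x ∈ G ∧ ∃ s : Stp, x + dv s ∉ G := by
  unfold bd; rw [mem_filter]

theorem mem_inn {G : Finset Pt} {x : Pt} : x ∈ inn G ↔ x ∈ G ∧ ∀ s : Stp, x + dv s ∈ G := by
  unfold inn; rw [mem_filter]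

theorem inn_subset (G : Finset Pt) : inn G ⊆ G := fun _ hx => (mem_inn.mp hx).1

theorem pV_le (hI : TaskIso) (G : Finset Pt) : (pV G).card ≤ (bd G).card := by
  classical
  have h := hI (G.image Prod.swap)
  have h1 : pU (G.image Prod.swap) = pV G := by
    unfold pU pV
    rw [Finset.image_image]
    rfl
  have h2 : (bd (G.image Prod.swap)).card ≤ (bd G).card := by
    have h3 : bd (G.image Prod.swap) ⊆ (bd G).image Prod.swap := by
      intro x hx
      rw [mem_bd] at hx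
      obtain ⟨hx1, s, hs⟩ := hx
      obtain ⟨y, hy, rfl⟩ := Finset.mem_image.mp hx1
      refine Finset.mem_image_of_mem _ (mem_bd.mpr ⟨hy, (s.2, s.1), fun hc => hs ?_⟩)
      refine Finset.mem_image.mpr ⟨_, hc, ?_⟩
      ext <;> simp [dv]
    exact (card_le_card h3).trans card_image_le
  rw [h1] at h
  omega

theorem pU_le (hI : TaskIso) (G : Finset Pt) : (pU G).card ≤ (bd G).card := by
  have := hI G; omega

theorem PQ_le (hI : TaskIso) (G : Finset Pt) : (pU (inn G)).card + (pV (inn G)).card ≤ (bd G).card := by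
  have h := hI G
  have h1 : (pU (inn G)).card ≤ (pU G).card := card_le_card (image_subset_image (inn_subset G))
  omega

theorem coord_le {a b : ℤ} {K : ℕ} {S : Finset ℤ} (hS : S = Icc a b) (ha : a ≤ 0) (hb : 0 ≤ b) (hK : S.card ≤ K)
    {x : ℤ} (hx : x ∈ S) : |x| ≤ (K : ℤ) := by
  rw [hS] at hx hK
  rw [Int.card_Icc] at hK
  rw [Finset.mem_Icc] at hx
  rw [abs_le]
  have : (b + 1 - a) ≤ (K : ℤ) := by
    have := Int.self_le_toNat (b + 1 - a)
    omega
  constructor <;> omega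

/-- all sites of a path with small boundary are near the origin -/
theorem near (hI : TaskIso) (hT : TaskInt) {n K : ℕ} (ω : Fin n → Stp) (h : (bd (rng 0 ω)).card ≤ K) :
    ∀ x ∈ rng 0 ω, |x.1| ≤ (K : ℤ) ∧ |x.2| ≤ (K : ℤ) := by
  obtain ⟨⟨a, b, ha, hb, hU⟩, ⟨c, d, hc, hd, hV⟩, _⟩ := hT n ω
  intro x hx
  constructor
  · apply coord_le hU ha hb ((pU_le hI _).trans h)
    exact mem_image_of_mem _ hx
  · apply coord_le hV hc hd ((pV_le hI _).trans h)
    exact mem_image_of_mem _ hx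

/-- the subsets of `[-K, K]` -/
noncomputable def PK (K : ℕ) : Finset (Finset ℤ) := (Icc (-(K : ℤ)) K).powerset

theorem card_PK (K : ℕ) : (PK K).card = 2 ^ (2 * K + 1) := by
  unfold PK
  rw [card_powerset, Int.card_Icc]
  congr 1
  omega

theorem mem_PK {K : ℕ} {P : Finset ℤ} : P ∈ PK K ↔ ∀ x ∈ P, |x| ≤ (K : ℤ) := by
  unfold PK
  rw [mem_powerset]
  constructor
  · intro h x hx
    have := h hx
    rw [Finset.mem_Icc] at this
    rw [abs_le]; exact this
  · intro h x hx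
    rw [Finset.mem_Icc]
    exact abs_le.mp (h x hx)

/-- the bad condition -/
def Cond (η p : ℝ) (b P Q : ℕ) : Prop :=
  P + Q ≤ b ∧ (η * p < |(P : ℝ) - p| ∨ η * p < |(Q : ℝ) - p| ∨ (P : ℝ) + Q + η * p < b)

open Classical in
/-- the bound for the number of paths, weighted -/
theorem sum_le (hI : TaskIso) (hT : TaskInt) {θ C : ℝ}
    (hUB : ∀ (n b k K : ℕ) (P Q : Finset ℤ),
      (∀ x ∈ P, |x| ≤ (K : ℤ)) → (∀ x ∈ Q, |x| ≤ (K : ℤ)) →
      (((univ : Finset (Fin n → Stp)).filter (fun ω =>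
      (∀ x ∈ rng 0 ω, |x.1| ≤ (K : ℤ) ∧ |x.2| ≤ (K : ℤ)) ∧ (bd (rng 0 ω)).card ≤ b ∧
      pU (inn (rng 0 ω)) ⊆ P ∧ pV (inn (rng 0 ω)) ⊆ Q)).card : ℝ)
    ≤ 4 ^ n * (4 ^ b * (3 / 4) ^ k + Real.exp (2 * θ * k) * C ^ (2 * (K + 1)) *
      (Real.cos (Real.pi / (P.card + C)) * Real.cos (Real.pi / (Q.card + C))) ^ n))
    (η β t : ℝ) (hβ : 0 < β) (n k K : ℕ) (hK : 4 * ps β t ≤ K) :
    ∑ ω : Fin n → Stp, (if rng 0 ω ∈ {G | G ∉ good1 η β t} then wt β (rng 0 ω) else 0) ≤
      4 ^ n * (Real.exp (-β * (4 * ps β t)) + ∑ b ∈ range (K + 1), ∑ P ∈ PK K, ∑ Q ∈ PK K,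
        if Cond η (ps β t) b P.card Q.card then
          Real.exp (-β * b) * (4 ^ b * (3 / 4) ^ k + Real.exp (2 * θ * k) * C ^ (2 * (K + 1)) *
      (Real.cos (Real.pi / (P.card + C)) * Real.cos (Real.pi / (Q.card + C))) ^ n) else 0) := by
  have hpt : ∀ ω : Fin n → Stp, (if rng 0 ω ∈ {G | G ∉ good1 η β t} then wt β (rng 0 ω) else 0) ≤
      Real.exp (-β * (4 * ps β t)) + ∑ b ∈ range (K + 1), ∑ P ∈ PK K, ∑ Q ∈ PK K,
        (if Cond η (ps β t) b P.card Q.card then
          (if ((∀ x ∈ rng 0 ω, |x.1| ≤ (K : ℤ) ∧ |x.2| ≤ (K : ℤ)) ∧ (bd (rng 0 ω)).card ≤ b ∧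
            pU (inn (rng 0 ω)) ⊆ P ∧ pV (inn (rng 0 ω)) ⊆ Q) then Real.exp (-β * b) else 0) else 0) := by
    intro ω
    have hnn : ∀ b P Q, 0 ≤ (if Cond η (ps β t) b (Finset.card (P : Finset ℤ)) (Finset.card (Q : Finset ℤ)) then
          (if ((∀ x ∈ rng 0 ω, |x.1| ≤ (K : ℤ) ∧ |x.2| ≤ (K : ℤ)) ∧ (bd (rng 0 ω)).card ≤ b ∧
            pU (inn (rng 0 ω)) ⊆ P ∧ pV (inn (rng 0 ω)) ⊆ Q) then Real.exp (-β * b) else 0) else 0) := by
      intro b P Q
      split_ifs <;> positivity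
    split_ifs with hbad
    · by_cases hb : ((bd (rng 0 ω)).card : ℝ) ≤ 4 * ps β t
      · have hbK : (bd (rng 0 ω)).card ≤ K := by exact_mod_cast hb.trans hK
        have hnear := near hI hT ω hbK
        have hP : pU (inn (rng 0 ω)) ∈ PK K := by
          rw [mem_PK]
          intro x hx
          obtain ⟨y, hy, rfl⟩ := mem_image.mp hx
          exact (hnear y (inn_subset _ hy)).1
        have hQ : pV (inn (rng 0 ω)) ∈ PK K := by
          rw [mem_PK]
          intro x hx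
          obtain ⟨y, hy, rfl⟩ := mem_image.mp hx
          exact (hnear y (inn_subset _ hy)).2
        have hcond : Cond η (ps β t) (bd (rng 0 ω)).card (pU (inn (rng 0 ω))).card (pV (inn (rng 0 ω))).card := by
          refine ⟨PQ_le hI _, ?_⟩
          by_contra hcon
          push Not at hcon
          exact hbad ⟨hcon.1, hcon.2.1, by linarith [hcon.2.2]⟩
        have h0 : 0 ≤ Real.exp (-β * (4 * ps β t)) := (Real.exp_pos _).le
        have h1 : wt β (rng 0 ω) ≤ ∑ b ∈ range (K + 1), ∑ P ∈ PK K, ∑ Q ∈ PK K,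
            (if Cond η (ps β t) b P.card Q.card then
          (if ((∀ x ∈ rng 0 ω, |x.1| ≤ (K : ℤ) ∧ |x.2| ≤ (K : ℤ)) ∧ (bd (rng 0 ω)).card ≤ b ∧
            pU (inn (rng 0 ω)) ⊆ P ∧ pV (inn (rng 0 ω)) ⊆ Q) then Real.exp (-β * b) else 0) else 0) := by
          refine le_trans ?_ (single_le_sum (f := fun b => ∑ P ∈ PK K, ∑ Q ∈ PK K,
            (if Cond η (ps β t) b P.card Q.card then
          (if ((∀ x ∈ rng 0 ω, |x.1| ≤ (K : ℤ) ∧ |x.2| ≤ (K : ℤ)) ∧ (bd (rng 0 ω)).card ≤ b ∧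
            pU (inn (rng 0 ω)) ⊆ P ∧ pV (inn (rng 0 ω)) ⊆ Q) then Real.exp (-β * b) else 0) else 0))
            (fun b _ => sum_nonneg fun P _ => sum_nonneg fun Q _ => hnn b P Q)
            (mem_range.mpr (Nat.lt_succ_of_le hbK)))
          refine le_trans ?_ (single_le_sum (f := fun P => ∑ Q ∈ PK K,
            (if Cond η (ps β t) (bd (rng 0 ω)).card (Finset.card P) Q.card then
          (if ((∀ x ∈ rng 0 ω, |x.1| ≤ (K : ℤ) ∧ |x.2| ≤ (K : ℤ)) ∧ (bd (rng 0 ω)).card ≤ (bd (rng 0 ω)).card ∧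
            pU (inn (rng 0 ω)) ⊆ P ∧ pV (inn (rng 0 ω)) ⊆ Q) then Real.exp (-β * (bd (rng 0 ω)).card) else 0) else 0))
            (fun P _ => sum_nonneg fun Q _ => hnn _ P Q) hP)
          refine le_trans ?_ (single_le_sum (f := fun Q =>
            (if Cond η (ps β t) (bd (rng 0 ω)).card (Finset.card (pU (inn (rng 0 ω)))) (Finset.card Q) then
          (if ((∀ x ∈ rng 0 ω, |x.1| ≤ (K : ℤ) ∧ |x.2| ≤ (K : ℤ)) ∧ (bd (rng 0 ω)).card ≤ (bd (rng 0 ω)).card ∧
            pU (inn (rng 0 ω)) ⊆ pU (inn (rng 0 ω)) ∧ pV (inn (rng 0 ω)) ⊆ Q) then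
              Real.exp (-β * (bd (rng 0 ω)).card) else 0) else 0))
            (fun Q _ => hnn _ _ Q) hQ)
          rw [if_pos hcond, if_pos ⟨hnear, le_rfl, Subset.refl _, Subset.refl _⟩]
          exact le_rfl
        linarith
      · push Not at hb
        have h1 : wt β (rng 0 ω) ≤ Real.exp (-β * (4 * ps β t)) := by
          unfold wt
          apply Real.exp_le_exp.mpr
          nlinarith
        have h2 := sum_nonneg (s := range (K + 1)) (fun b _ => sum_nonneg (s := PK K) fun P _ =>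
          sum_nonneg (s := PK K) fun Q _ => hnn b P Q)
        linarith
    · have h2 := sum_nonneg (s := range (K + 1)) (fun b _ => sum_nonneg (s := PK K) fun P _ =>
          sum_nonneg (s := PK K) fun Q _ => hnn b P Q)
      have h3 : 0 ≤ Real.exp (-β * (4 * ps β t)) := (Real.exp_pos _).le
      linarith
  refine (sum_le_sum fun ω _ => hpt ω).trans ?_
  rw [sum_add_distrib, sum_const, card_univ, Fintype.card_fun, Fintype.card_fin, nsmul_eq_mul, mul_add]
  have hc4 : ((Fintype.card Stp ^ n : ℕ) : ℝ) = 4 ^ n := by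
    have : Fintype.card Stp = 4 := by decide
    rw [this]; norm_num
  rw [hc4]
  apply add_le_add le_rfl
  rw [sum_comm, mul_sum]
  apply sum_le_sum
  intro b _
  rw [sum_comm, mul_sum]
  apply sum_le_sum
  intro P hP
  rw [sum_comm, mul_sum]
  apply sum_le_sum
  intro Q hQ
  by_cases hc : Cond η (ps β t) b P.card Q.card
  · simp only [if_pos hc]
    have h := hUB n b k K P Q (mem_PK.mp hP) (mem_PK.mp hQ)
    rw [← sum_filter, sum_const, nsmul_eq_mul]
    have h2 : 0 ≤ Real.exp (-β * b) := (Real.exp_pos _).le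
    calc _ ≤ (4 ^ n * (4 ^ b * (3 / 4) ^ k + Real.exp (2 * θ * k) * C ^ (2 * (K + 1)) *
        (Real.cos (Real.pi / (P.card + C)) * Real.cos (Real.pi / (Q.card + C))) ^ n)) * Real.exp (-β * b) := by
          apply mul_le_mul_of_nonneg_right _ h2
          convert h using 2
      _ = _ := by ring
  · simp only [if_neg hc, sum_const_zero, mul_zero, le_refl]

end Pool.Agent.H811R3.DM
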