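import Mathlib
import Pool.Agent.H308R3.DM.Stmts
import Pool.Agent.H811R3.DM.Expo
import Pool.Agent.H811R3.DM.Comb

set_option autoImplicit false

/-!
# Task Bad1 of project DIAMOND (helper811)
-/

namespace Pool.Agent.H811R3.DM

open Finset Filter Topology
open Pool.Agent.H308R3.DM

theorem hasSum_poi (t ρ : ℝ) :
    HasSum (fun n : ℕ => Real.exp (-t) * t ^ n / n.factorial * ρ ^ n) (Real.exp (-t * (1 - ρ))) := by
  have h := NormedSpace.expSeries_div_hasSum_exp (𝔸 := ℝ) (t * ρ)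
  rw [← Real.exp_eq_exp_ℝ] at h
  have h2 := h.mul_left (Real.exp (-t))
  rw [← Real.exp_add] at h2
  have e1 : (fun n : ℕ => Real.exp (-t) * t ^ n / n.factorial * ρ ^ n) =
      fun n : ℕ => Real.exp (-t) * ((t * ρ) ^ n / n.factorial) := by
    funext n
    rw [mul_pow]; ring
  have e2 : -t * (1 - ρ) = -t + t * ρ := by ring
  rw [e1, e2]
  exact h2

theorem poi_le {ι : Type*} (S : Finset ι) (t a : ℝ) (ht : 0 ≤ t) (A : ℕ → ℝ) (w v ρ : ι → ℝ)
    (hA0 : ∀ n, 0 ≤ A n) (hA : ∀ n, A n ≤ a + ∑ j ∈ S, (w j + v j * ρ j ^ n)) :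
    ∑' n : ℕ, Real.exp (-t) * t ^ n / n.factorial * A n ≤
      a + ∑ j ∈ S, (w j + v j * Real.exp (-t * (1 - ρ j))) := by
  have h1 : HasSum (fun n : ℕ => Real.exp (-t) * t ^ n / n.factorial) 1 := by
    have := hasSum_poi t 1
    simpa using this
  have h2 : HasSum (fun n : ℕ => Real.exp (-t) * t ^ n / n.factorial * (a + ∑ j ∈ S, (w j + v j * ρ j ^ n)))
      (a + ∑ j ∈ S, (w j + v j * Real.exp (-t * (1 - ρ j)))) := by
    have h3 : ∀ j ∈ S, HasSum (fun n : ℕ => Real.exp (-t) * t ^ n / n.factorial * (w j + v j * ρ j ^ n))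
        (w j + v j * Real.exp (-t * (1 - ρ j))) := by
      intro j _
      have h5 := (h1.mul_left (w j)).add ((hasSum_poi t (ρ j)).mul_left (v j))
      rw [mul_one] at h5
      have e : (fun n : ℕ => Real.exp (-t) * t ^ n / n.factorial * (w j + v j * ρ j ^ n)) =
        fun n : ℕ => w j * (Real.exp (-t) * t ^ n / n.factorial) +
          v j * (Real.exp (-t) * t ^ n / n.factorial * ρ j ^ n) := by
        funext n; ring
      rw [e]
      exact h5
    have h4 := (h1.mul_left a).add (hasSum_sum h3)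
    rw [mul_one] at h4
    have e : (fun n : ℕ => Real.exp (-t) * t ^ n / n.factorial * (a + ∑ j ∈ S, (w j + v j * ρ j ^ n))) =
      fun n : ℕ => a * (Real.exp (-t) * t ^ n / n.factorial) +
        ∑ j ∈ S, Real.exp (-t) * t ^ n / n.factorial * (w j + v j * ρ j ^ n) := by
      funext n
      rw [mul_add, mul_sum, mul_comm a]
    rw [e]
    exact h4
  have h0 : ∀ n : ℕ, 0 ≤ Real.exp (-t) * t ^ n / n.factorial := fun n => by positivity
  have hle : ∀ n : ℕ, Real.exp (-t) * t ^ n / n.factorial * A n ≤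
      Real.exp (-t) * t ^ n / n.factorial * (a + ∑ j ∈ S, (w j + v j * ρ j ^ n)) :=
    fun n => mul_le_mul_of_nonneg_left (hA n) (h0 n)
  have hs : Summable (fun n : ℕ => Real.exp (-t) * t ^ n / n.factorial * A n) :=
    Summable.of_nonneg_of_le (fun n => mul_nonneg (h0 n) (hA0 n)) hle h2.summable
  exact hasSum_le hle hs.hasSum h2

theorem wt_nonneg (β : ℝ) (G : Finset Pt) : 0 ≤ wt β G := by unfold wt; positivity

open Classical in
theorem Es_nonneg (t : ℝ) (ht : 0 ≤ t) (f : Finset Pt → ℝ) (hf : ∀ G, 0 ≤ f G) : 0 ≤ Es t f := by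
  unfold Es
  apply tsum_nonneg
  intro n
  have : 0 ≤ ∑ ω : Fin n → Stp, f (rng 0 ω) := sum_nonneg fun ω _ => hf _
  positivity

open Classical in
/-- numerator bound -/
theorem num_le (hI : TaskIso) (hT : TaskInt) {θ C : ℝ}
    (hUB : ∀ (n b k K : ℕ) (P Q : Finset ℤ),
      (∀ x ∈ P, |x| ≤ (K : ℤ)) → (∀ x ∈ Q, |x| ≤ (K : ℤ)) →
      (((univ : Finset (Fin n → Stp)).filter (fun ω =>
      (∀ x ∈ rng 0 ω, |x.1| ≤ (K : ℤ) ∧ |x.2| ≤ (K : ℤ)) ∧ (bd (rng 0 ω)).card ≤ b ∧
      pU (inn (rng 0 ω)) ⊆ P ∧ pV (inn (rng 0 ω)) ⊆ Q)).card : ℝ)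
    ≤ 4 ^ n * (4 ^ b * (3 / 4) ^ k + Real.exp (2 * θ * k) * C ^ (2 * (K + 1)) *
      (Real.cos (Real.pi / (P.card + C)) * Real.cos (Real.pi / (Q.card + C))) ^ n))
    (η β t : ℝ) (hβ : 0 < β) (ht : 0 ≤ t) (k K : ℕ) (hK : 4 * ps β t ≤ K) :
    Es t (fun G => if G ∈ {G | G ∉ good1 η β t} then wt β G else 0) ≤
      Real.exp (-β * (4 * ps β t)) + ∑ j ∈ range (K + 1) ×ˢ (PK K ×ˢ PK K),
        ((if Cond η (ps β t) j.1 j.2.1.card j.2.2.card then Real.exp (-β * j.1) * (4 ^ j.1 * (3 / 4) ^ k) else 0) +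
         (if Cond η (ps β t) j.1 j.2.1.card j.2.2.card then Real.exp (-β * j.1) *
          (Real.exp (2 * θ * k) * C ^ (2 * (K + 1))) else 0) *
          Real.exp (-t * (1 - Real.cos (Real.pi / (j.2.1.card + C)) * Real.cos (Real.pi / (j.2.2.card + C))))) := by
  unfold Es
  apply poi_le _ _ _ ht
  · intro n
    apply div_nonneg _ (by positivity)
    apply sum_nonneg
    intro ω _
    beta_reduce
    split_ifs
    · exact wt_nonneg _ _
    · exact le_rfl
  · intro n
    rw [div_le_iff₀ (by positivity)]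
    refine (sum_le hI hT hUB η β t hβ n k K hK).trans (le_of_eq ?_)
    rw [mul_comm]
    congr 2
    rw [sum_product]
    apply sum_congr rfl
    intro b _
    rw [sum_product]
    apply sum_congr rfl
    intro P _
    apply sum_congr rfl
    intro Q _
    by_cases hc : Cond η (ps β t) b P.card Q.card
    · simp only [if_pos hc]
      ring
    · simp only [if_neg hc]
      ring

theorem four_pow_le (n : ℕ) : (4 : ℝ) ^ n ≤ Real.exp (2 * n) := by
  have h1 : (2 : ℝ) ≤ Real.exp 1 := by have := Real.add_one_le_exp (1 : ℝ); linarith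
  have h2 : (4 : ℝ) ≤ Real.exp 2 := by
    have : Real.exp 2 = Real.exp 1 * Real.exp 1 := by rw [← Real.exp_add]; norm_num
    rw [this]; nlinarith
  calc (4 : ℝ) ^ n ≤ (Real.exp 2) ^ n := pow_le_pow_left₀ (by norm_num) h2 n
    _ = Real.exp (2 * n) := by rw [← Real.exp_nat_mul]; congr 1; ring

theorem two_pow_le (n : ℕ) : (2 : ℝ) ^ n ≤ Real.exp n := by
  have h1 : (2 : ℝ) ≤ Real.exp 1 := by have := Real.add_one_le_exp (1 : ℝ); linarith
  calc (2 : ℝ) ^ n ≤ (Real.exp 1) ^ n := pow_le_pow_left₀ (by norm_num) h1 n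
    _ = Real.exp n := by rw [← Real.exp_nat_mul]; congr 1; ring

theorem tq_pow_le (n : ℕ) : (3 / 4 : ℝ) ^ n ≤ Real.exp (-(n / 4)) := by
  have h1 : (3 / 4 : ℝ) ≤ Real.exp (-(1 / 4)) := by have := Real.add_one_le_exp (-(1 / 4) : ℝ); linarith
  calc (3 / 4 : ℝ) ^ n ≤ (Real.exp (-(1 / 4))) ^ n := pow_le_pow_left₀ (by norm_num) h1 n
    _ = Real.exp (-(n / 4)) := by rw [← Real.exp_nat_mul]; congr 1; ring

theorem card_le' (K : ℕ) : ((range (K + 1) ×ˢ (PK K ×ˢ PK K)).card : ℝ) ≤ Real.exp (5 * K + 2) := by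
  rw [card_product, card_product, card_range, card_PK]
  push_cast
  have h1 : (K : ℝ) + 1 ≤ Real.exp K := Real.add_one_le_exp _
  have h2 := two_pow_le (2 * K + 1)
  push_cast at h2
  calc ((K : ℝ) + 1) * (2 ^ (2 * K + 1) * 2 ^ (2 * K + 1))
      ≤ Real.exp K * (Real.exp (2 * K + 1) * Real.exp (2 * K + 1)) := by gcongr
    _ = Real.exp (5 * K + 2) := by
      rw [← Real.exp_add, ← Real.exp_add]; congr 1; ring

open Classical in
/-- total bound -/
theorem tot_le {c₁ θ C β p t : ℝ} (k K : ℕ) (hc₁ : 0 < c₁) (hθ : θ = c₁ / 160) (hC : 3 ≤ C) (hβ : 0 < β)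
    (hK : (K : ℝ) ≤ 4 * p + 1) (hk1 : 40 * β * p ≤ k) (hk2 : (k : ℝ) ≤ 40 * β * p + 1)
    (Cnd : ℕ → ℕ → ℕ → Prop)
    (hexpo : ∀ P Q b : ℕ, Cnd b P Q → β * p * (3 + c₁) ≤
      β * b + t * (1 - Real.cos (Real.pi / (P + C)) * Real.cos (Real.pi / (Q + C)))) :
    ∑ j ∈ range (K + 1) ×ˢ (PK K ×ˢ PK K),
        ((if Cnd j.1 j.2.1.card j.2.2.card then Real.exp (-β * j.1) * (4 ^ j.1 * (3 / 4) ^ k) else 0) +
         (if Cnd j.1 j.2.1.card j.2.2.card then Real.exp (-β * j.1) *
          (Real.exp (2 * θ * k) * C ^ (2 * (K + 1))) else 0) *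
          Real.exp (-t * (1 - Real.cos (Real.pi / (j.2.1.card + C)) * Real.cos (Real.pi / (j.2.2.card + C))))) ≤
      Real.exp (28 * p + 9 - 10 * β * p) +
        Real.exp ((20 + 8 * Real.log C) * p + (7 + c₁ / 80 + 4 * Real.log C) - (3 + c₁ / 2) * β * p) := by
  have hL : 0 ≤ Real.log C := Real.log_nonneg (by linarith)
  have hC0 : 0 < C := by linarith
  have hterm : ∀ j ∈ range (K + 1) ×ˢ (PK K ×ˢ PK K),
        ((if Cnd j.1 j.2.1.card j.2.2.card then Real.exp (-β * j.1) * (4 ^ j.1 * (3 / 4) ^ k) else 0) +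
         (if Cnd j.1 j.2.1.card j.2.2.card then Real.exp (-β * j.1) *
          (Real.exp (2 * θ * k) * C ^ (2 * (K + 1))) else 0) *
          Real.exp (-t * (1 - Real.cos (Real.pi / (j.2.1.card + C)) * Real.cos (Real.pi / (j.2.2.card + C))))) ≤
        Real.exp (8 * p + 2 - 10 * β * p) +
          Real.exp ((c₁ / 2) * β * p + c₁ / 80 + (8 * p + 4) * Real.log C - β * p * (3 + c₁)) := by
    rintro ⟨b, P, Q⟩ hj
    rw [mem_product, mem_range] at hj
    by_cases hc : Cnd b P.card Q.card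
    · simp only [if_pos hc]
      apply add_le_add
      · have h1 : Real.exp (-β * b) ≤ 1 := by
          rw [Real.exp_le_one_iff]
          have : (0 : ℝ) ≤ b := Nat.cast_nonneg b
          nlinarith
        have h2 : (4 : ℝ) ^ b ≤ Real.exp (8 * p + 2) := by
          refine (four_pow_le b).trans (Real.exp_le_exp.mpr ?_)
          have : (b : ℝ) ≤ K := by exact_mod_cast Nat.lt_succ_iff.mp hj.1
          linarith
        have h3 : (3 / 4 : ℝ) ^ k ≤ Real.exp (-(10 * β * p)) := by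
          refine (tq_pow_le k).trans (Real.exp_le_exp.mpr ?_)
          linarith
        calc Real.exp (-β * b) * (4 ^ b * (3 / 4) ^ k) ≤ 1 * (Real.exp (8 * p + 2) * Real.exp (-(10 * β * p))) := by
              gcongr
          _ = _ := by rw [one_mul, ← Real.exp_add]; congr 1
      · have h1 : C ^ (2 * (K + 1)) ≤ Real.exp ((8 * p + 4) * Real.log C) := by
          have e : C ^ (2 * (K + 1)) = Real.exp (((2 * (K + 1) : ℕ) : ℝ) * Real.log C) := by
            rw [Real.exp_nat_mul, Real.exp_log hC0]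
          rw [e]
          apply Real.exp_le_exp.mpr
          apply mul_le_mul_of_nonneg_right _ hL
          push_cast
          linarith
        have h2 : Real.exp (2 * θ * k) ≤ Real.exp ((c₁ / 2) * β * p + c₁ / 80) := by
          apply Real.exp_le_exp.mpr
          rw [hθ]
          nlinarith
        have h3 := hexpo P.card Q.card b hc
        have h4 : Real.exp (-β * b) * Real.exp (-t * (1 - Real.cos (Real.pi / (P.card + C)) *
            Real.cos (Real.pi / (Q.card + C)))) ≤ Real.exp (-(β * p * (3 + c₁))) := by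
          rw [← Real.exp_add]
          apply Real.exp_le_exp.mpr
          linarith
        calc _ = (Real.exp (-β * b) * Real.exp (-t * (1 - Real.cos (Real.pi / (P.card + C)) *
            Real.cos (Real.pi / (Q.card + C))))) * (Real.exp (2 * θ * k) * C ^ (2 * (K + 1))) := by ring
          _ ≤ Real.exp (-(β * p * (3 + c₁))) * (Real.exp ((c₁ / 2) * β * p + c₁ / 80) *
            Real.exp ((8 * p + 4) * Real.log C)) := by gcongr
          _ = _ := by
            rw [← Real.exp_add, ← Real.exp_add]; congr 1; ring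
    · simp only [if_neg hc]
      rw [zero_mul, add_zero]
      positivity
  refine (sum_le_card_nsmul _ _ _ hterm).trans ?_
  rw [nsmul_eq_mul]
  have hcard : ((range (K + 1) ×ˢ (PK K ×ˢ PK K)).card : ℝ) ≤ Real.exp (20 * p + 7) :=
    (card_le' K).trans (Real.exp_le_exp.mpr (by linarith))
  calc _ ≤ Real.exp (20 * p + 7) * (Real.exp (8 * p + 2 - 10 * β * p) +
          Real.exp ((c₁ / 2) * β * p + c₁ / 80 + (8 * p + 4) * Real.log C - β * p * (3 + c₁))) := by gcongr
    _ = _ := by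
      rw [mul_add, ← Real.exp_add, ← Real.exp_add]
      congr 2 <;> ring

theorem taskBad1 : TaskUB → TaskZ → TaskIso → TaskInt → TaskBad1 := by
  classical
  intro hUB hZ hI hT η hη
  obtain ⟨c₁, hc₁, hexpo⟩ := expo η hη
  obtain ⟨C, hC, hUB'⟩ := hUB (c₁ / 160) (by positivity)
  obtain ⟨p₀, hp₀, hexpo'⟩ := hexpo C hC
  obtain ⟨C', β₁, hC', hβ₁, hZ'⟩ := hZ
  obtain ⟨L, hLdef⟩ : ∃ L, L = Real.log C := ⟨_, rfl⟩
  have hL : 0 ≤ L := by rw [hLdef]; exact Real.log_nonneg (by linarith)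
  refine ⟨max β₁ (max (29 + C') (2 * (21 + 8 * L + C') / c₁)), lt_max_of_lt_left hβ₁, ?_⟩
  intro β hβ
  have hβ1 : β₁ ≤ β := (le_max_left _ _).trans hβ
  have hβ3 : 29 + C' ≤ β := ((le_max_left _ _).trans (le_max_right _ _)).trans hβ
  have hβ4' : 2 * (21 + 8 * L + C') / c₁ ≤ β := ((le_max_right _ _).trans (le_max_right _ _)).trans hβ
  have hβ4 : 21 + 8 * L + C' ≤ c₁ / 2 * β := by
    rw [div_le_iff₀ hc₁] at hβ4'
    linarith
  have hβ0 : 0 < β := by linarith
  have hps : Tendsto (fun t => ps β t) atTop atTop := by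
    unfold ps
    apply (tendsto_rpow_atTop (by norm_num : (0 : ℝ) < 1 / 3)).comp
    have : (fun t : ℝ => Real.pi ^ 2 * t / β) = fun t => (Real.pi ^ 2 / β) * t := by funext t; ring
    rw [this]
    exact tendsto_id.const_mul_atTop (by positivity)
  have hup : Tendsto (fun t => Real.exp (0 - ps β t) + Real.exp (9 - ps β t) +
      Real.exp ((7 + c₁ / 80 + 4 * L) - ps β t)) atTop (𝓝 0) := by
    have h1 : ∀ c : ℝ, Tendsto (fun t => Real.exp (c - ps β t)) atTop (𝓝 0) := by
      intro c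
      apply Real.tendsto_exp_atBot.comp
      have := tendsto_atBot_add_const_left atTop c (tendsto_neg_atTop_atBot.comp hps)
      refine this.congr fun t => ?_
      simp [sub_eq_add_neg]
    have h := ((h1 0).add (h1 9)).add (h1 (7 + c₁ / 80 + 4 * L))
    rw [add_zero, add_zero] at h
    exact h
  refine squeeze_zero' ?_ ?_ hup
  · filter_upwards [eventually_ge_atTop 0] with t ht
    unfold mu
    apply div_nonneg
    · apply Es_nonneg t ht
      intro G
      split_ifs
      · exact wt_nonneg _ _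
      · exact le_rfl
    · exact Es_nonneg t ht _ (wt_nonneg β)
  · filter_upwards [hZ' β hβ1, eventually_ge_atTop 0, hps.eventually_ge_atTop p₀] with t hZt ht hpt
    have hp3 : β * ps β t ^ 3 / Real.pi ^ 2 = t := by
      have : ps β t ^ 3 = Real.pi ^ 2 * t / β := by
        unfold ps
        rw [← Real.rpow_natCast, ← Real.rpow_mul (by positivity)]
        norm_num
      rw [this]
      field_simp
    have hp1 : 1 ≤ ps β t := hp₀.trans hpt
    have hp0 : 0 < ps β t := by linarith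
    have hnum := num_le hI hT hUB' η β t hβ0 ht ⌈40 * β * ps β t⌉₊ ⌈4 * ps β t⌉₊ (Nat.le_ceil _)
    have htot := tot_le (c₁ := c₁) (θ := c₁ / 160) (C := C) (β := β) (p := ps β t) (t := t)
      ⌈40 * β * ps β t⌉₊ ⌈4 * ps β t⌉₊ hc₁ rfl hC hβ0 (Nat.ceil_lt_add_one (by positivity)).le
      (Nat.le_ceil _) (Nat.ceil_lt_add_one (by positivity)).le (Cond η (ps β t)) (by
        intro P Q b hc
        have := hexpo' β (ps β t) hβ0 hpt P Q b hc.1 hc.2
        rw [hp3] at this
        exact this)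
    have hD : 0 < Es t (wt β) := (Real.exp_pos _).trans_le hZt
    unfold mu
    rw [div_le_iff₀ hD]
    refine le_trans (le_of_eq ?_) (hnum.trans ?_)
    · congr 1
      funext G
      congr
    refine (add_le_add le_rfl htot).trans ?_
    refine le_trans ?_ (mul_le_mul_of_nonneg_left hZt (by positivity))
    rw [← hLdef]
    have hββ : 0 ≤ (β - C' - 1) * ps β t := mul_nonneg (by linarith) hp0.le
    have hββ2 : 0 ≤ (7 * β - 29 - C') * ps β t := mul_nonneg (by linarith) hp0.le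
    have hββ3 : 0 ≤ (c₁ / 2 * β - (21 + 8 * L + C')) * ps β t := mul_nonneg (by linarith) hp0.le
    have e1 : Real.exp (-β * (4 * ps β t)) ≤
        Real.exp (0 - ps β t) * Real.exp (-(3 * β + C') * ps β t) := by
      rw [← Real.exp_add]
      apply Real.exp_le_exp.mpr
      nlinarith
    have e2 : Real.exp (28 * ps β t + 9 - 10 * β * ps β t) ≤
        Real.exp (9 - ps β t) * Real.exp (-(3 * β + C') * ps β t) := by
      rw [← Real.exp_add]
      apply Real.exp_le_exp.mpr
      nlinarith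
    have e3 : Real.exp ((20 + 8 * L) * ps β t + (7 + c₁ / 80 + 4 * L) - (3 + c₁ / 2) * β * ps β t) ≤
        Real.exp (7 + c₁ / 80 + 4 * L - ps β t) * Real.exp (-(3 * β + C') * ps β t) := by
      rw [← Real.exp_add]
      apply Real.exp_le_exp.mpr
      nlinarith
    calc _ ≤ _ := add_le_add e1 (add_le_add e2 e3)
      _ = _ := by ring

end Pool.Agent.H811R3.DM
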